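import Pool.Agent.helper52.WP.SpecL

set_option autoImplicit false

open Complex Metric Set Filter Topology MeasureTheory
open V3S (UF)
open WP

noncomputable section

namespace WPL

theorem PIN_loc (D : ℕ → Dat) (x : ℂ) (hx : x ∉ Pin D) :
    ∃ r > (0 : ℝ), ∀ᶠ m in UF, ∀ y ∈ (D m).Pt, r ≤ ‖y - x‖ := by
  have h1 : ¬ ∀ ε > (0 : ℝ), ∀ᶠ m in UF, ∃ y ∈ (D m).Pt, ‖y - x‖ < ε := hx
  push Not at h1
  obtain ⟨ε, hε, h2⟩ := h1
  refine ⟨ε, hε, ?_⟩
  have h3 : ¬ ∀ᶠ m in UF, ∃ y ∈ (D m).Pt, ‖y - x‖ < ε := fun h => by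
    have h4 : ∃ᶠ m in UF, ∀ y ∈ (D m).Pt, ε ≤ ‖y - x‖ := h2
    apply h4
    filter_upwards [h] with m hm hm'
    obtain ⟨y, hy, hy1⟩ := hm
    exact absurd (hm' y hy) (not_le.2 hy1)
  rw [V3S.UF_not] at h3
  filter_upwards [h3] with m hm y hy
  by_contra hlt
  exact hm ⟨y, hy, not_le.1 hlt⟩

theorem PIN_exi (p : ℕ → Prop) (h : ∀ᶠ m in UF, p m) : ∃ m, p m := by
  by_contra hne
  push Not at hne
  have h1 : ¬ ∀ᶠ m in UF, p m := by
    rw [V3S.UF_not]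
    exact Filter.Eventually.of_forall hne
  exact h1 h

theorem PIN_closed (D : ℕ → Dat) : IsClosed (Pin D) := by
  rw [← isOpen_compl_iff, Metric.isOpen_iff]
  intro x hx
  obtain ⟨r, hr, h1⟩ := PIN_loc D x hx
  refine ⟨r / 2, by positivity, fun z hz hzP => ?_⟩
  rw [mem_ball, dist_eq_norm] at hz
  have h2 : ∀ᶠ m in UF, ∃ y ∈ (D m).Pt, ‖y - z‖ < r / 2 := hzP (r / 2) (by positivity)
  obtain ⟨m, hm1, hm2⟩ := PIN_exi _ (h1.and h2)
  obtain ⟨y, hy, hy1⟩ := hm2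
  have h3 := hm1 y hy
  have h4 : ‖y - x‖ ≤ ‖y - z‖ + ‖z - x‖ := by
    have : y - x = (y - z) + (z - x) := by ring
    rw [this]
    exact norm_add_le _ _
  linarith

theorem PIN_sep (T : Finset ℂ) : ∃ ε > (0 : ℝ), ε < 1 ∧ ∀ x ∈ T, ∀ y ∈ T, x ≠ y → 2 * ε ≤ ‖x - y‖ := by
  by_cases hT : T.offDiag.Nonempty
  · obtain ⟨p, hp, hmin⟩ := Finset.exists_min_image T.offDiag (fun p => ‖p.1 - p.2‖) hT
    have hp2 := Finset.mem_offDiag.1 hp
    have hpos : 0 < ‖p.1 - p.2‖ := norm_pos_iff.2 (sub_ne_zero.2 hp2.2.2)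
    refine ⟨min (‖p.1 - p.2‖ / 2) (1 / 2), lt_min (by positivity) (by norm_num), ?_, ?_⟩
    · exact lt_of_le_of_lt (min_le_right _ _) (by norm_num)
    · intro x hx y hy hxy
      have h1 := hmin (x, y) (Finset.mem_offDiag.2 ⟨hx, hy, hxy⟩)
      have h2 := min_le_left (‖p.1 - p.2‖ / 2) (1 / 2)
      simp only at h1
      linarith
  · refine ⟨1 / 2, by norm_num, by norm_num, fun x hx y hy hxy => ?_⟩
    exact absurd ⟨(x, y), Finset.mem_offDiag.2 ⟨hx, hy, hxy⟩⟩ hT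

theorem PIN_fin (hCNT : WPC.CNT_stmt) (n : ℕ) (C : ℝ) (D : ℕ → Dat) (hC : 1 ≤ C) (hS : Seq n C D)
    (R : ℝ) : (Pin D ∩ ball 0 R).Finite := by
  by_contra hinf
  have hinf' : (Pin D ∩ ball 0 R).Infinite := hinf
  obtain ⟨A, -, hA⟩ := hS.good
  obtain ⟨N, hN⟩ := hCNT C hC (max R 0 + 1) (by have := le_max_right R 0; linarith)
  obtain ⟨T, hT1, hT2⟩ := hinf'.exists_subset_card_eq (N + 1)
  obtain ⟨ε, hε, hε1, hsep⟩ := PIN_sep T
  have h1 : ∀ᶠ m in UF, ∀ x ∈ T, ∃ y ∈ (D m).Pt, ‖y - x‖ < ε := by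
    rw [Filter.eventually_all_finset]
    intro x hx
    exact (hT1 hx).1 ε hε
  obtain ⟨m, hm⟩ := PIN_exi _ h1
  choose! g hg1 hg2 using hm
  have hinj : Set.InjOn g T := by
    intro x hx y hy hxy
    by_contra hne
    have h2 := hsep x hx y hy hne
    have h3 := hg2 x hx
    have h4 := hg2 y hy
    rw [← hxy] at h4
    have h5 : ‖x - y‖ ≤ ‖g x - x‖ + ‖g x - y‖ := by
      have : x - y = (g x - y) - (g x - x) := by ring
      rw [this]
      exact (norm_sub_le _ _).trans (by linarith)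
    linarith
  have hcard := hN n (A m) (D m) (hA m) (T.image g) (by
    intro y hy
    obtain ⟨x, hx, rfl⟩ := Finset.mem_image.1 hy
    refine ⟨hg1 x hx, ?_⟩
    have h2 := (hT1 hx).2
    rw [mem_ball_zero_iff] at h2
    have h3 := hg2 x hx
    have h4 : ‖g x‖ ≤ ‖g x - x‖ + ‖x‖ := by
      have : g x = (g x - x) + x := by ring
      nth_rewrite 1 [this]
      exact norm_add_le _ _
    have h5 := le_max_left R 0
    linarith)
  rw [Finset.card_image_of_injOn hinj, hT2] at hcard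
  omega

theorem PIN (hCNT : WPC.CNT_stmt) : PIN_stmt := by
  intro n C D hC hS
  have hfin := PIN_fin hCNT n C D hC hS
  have hcount : (Pin D).Countable := by
    have h1 : Pin D ⊆ ⋃ k : ℕ, (Pin D ∩ ball 0 (k : ℝ)) := by
      intro x hx
      obtain ⟨k, hk⟩ := exists_nat_gt ‖x‖
      exact mem_iUnion.2 ⟨k, hx, by rw [mem_ball_zero_iff]; exact hk⟩
    exact (Set.countable_iUnion fun k : ℕ => (hfin (k : ℝ)).countable).mono h1
  refine ⟨PIN_loc D, PIN_closed D, hfin, hcount, ?_, ?_⟩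
  · exact (hcount.isConnected_compl_of_one_lt_rank (by rw [Complex.rank_real_complex]; norm_num)).isPreconnected
  · intro x
    have h1 : ((Pin D ∩ ball 0 (‖x‖ + 1)) \ {x})ᶜ ∈ 𝓝 x := by
      apply IsOpen.mem_nhds
      · exact ((hfin _).subset sdiff_subset).isClosed.isOpen_compl
      · intro h
        exact h.2 rfl
    have h2 : ball (0 : ℂ) (‖x‖ + 1) ∈ 𝓝 x :=
      isOpen_ball.mem_nhds (by rw [mem_ball_zero_iff]; linarith)
    filter_upwards [mem_nhdsWithin_of_mem_nhds h1, mem_nhdsWithin_of_mem_nhds h2,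
      self_mem_nhdsWithin] with y hy1 hy2 hy3 hy
    exact hy1 ⟨⟨hy, hy2⟩, hy3⟩

end WPL
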